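import Mathlib

/-!
# Trees of maximum degree three in graphs of large girth
-/

set_option autoImplicit false

namespace Q114.IM

open SimpleGraph

/-- a locally injective homomorphism of a tree with maximum degree at most three into a graph in
which all vertices that are not isolated have three neighbours -/
theorem emb {V : Type} {Ad : V → V → Prop} (hsym : ∀ a b, Ad a b → Ad b a)
    (hT : ∀ x y, Ad x y → ∃ a b c, Ad x a ∧ Ad x b ∧ Ad x c ∧ a ≠ b ∧ a ≠ c ∧ b ≠ c)
    {v0 y0 : V} (h0 : Ad v0 y0) :
    ∀ (n : ℕ) (W : Type) [Fintype W] (T : SimpleGraph W), Fintype.card W = n → T.IsTree →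
      (∀ w, (T.neighborSet w).ncard ≤ 3) →
      ∃ φ : W → V, (∀ a b, T.Adj a b → Ad (φ a) (φ b)) ∧
        (∀ a b c, T.Adj c a → T.Adj c b → φ a = φ b → a = b) ∧ ∀ w, ∃ y, Ad (φ w) y := by
  classical
  intro n
  induction n using Nat.strong_induction_on with
  | _ n ih =>
    intro W _ T hn htree hdeg
    by_cases hsub : Subsingleton W
    · exact ⟨fun _ => v0, fun a b h => absurd (Subsingleton.elim a b) h.ne,
        fun a b _ _ _ _ => Subsingleton.elim a b, fun _ => ⟨y0, h0⟩⟩
    have hnt : Nontrivial W := not_subsingleton_iff_nontrivial.1 hsub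
    obtain ⟨l, hl⟩ := htree.exists_vert_degree_one_of_nontrivial
    obtain ⟨p, hp, hpu⟩ : ∃ p, T.Adj l p ∧ ∀ q, T.Adj l q → q = p := by
      obtain ⟨p, hp⟩ := Finset.card_eq_one.1 hl
      refine ⟨p, ?_, fun q hq => ?_⟩
      · rw [← mem_neighborFinset, hp]
        exact Finset.mem_singleton_self _
      · rw [← mem_neighborFinset, hp] at hq
        exact Finset.mem_singleton.1 hq
    have hcard : Fintype.card ((({l} : Set W)ᶜ : Set W)) < n := by
      rw [← hn]
      refine Fintype.card_lt_of_injective_of_notMem (fun x => x.1) Subtype.val_injective (b := l) ?_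
      rintro ⟨x, hx⟩
      exact x.2 hx
    obtain ⟨φ, f1, f2, f3⟩ := ih _ hcard _ (T.induce ({l}ᶜ : Set W)) rfl
      ⟨htree.connected.induce_compl_singleton_of_degree_eq_one hl, htree.isAcyclic.induce _⟩ (by
        intro w
        refine le_trans ?_ (hdeg w.1)
        rw [← Set.ncard_image_of_injective _ (Subtype.val_injective)]
        refine Set.ncard_le_ncard ?_ (Set.toFinite _)
        rintro _ ⟨x, hx, rfl⟩
        exact hx)
    have hpl : p ≠ l := hp.ne'
    obtain ⟨y, hy1⟩ := f3 ⟨p, hpl⟩
    obtain ⟨a, b, c, ha, hb, hc, hab, hac, hbc⟩ := hT _ _ hy1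
    -- the images of the other neighbours of `p`
    set S : Set V := φ '' {w | T.Adj p w.1} with hS
    have hS2 : S.ncard ≤ 2 := by
      refine le_trans (Set.ncard_image_le (Set.toFinite _)) ?_
      have h1 : (Subtype.val '' {w : (({l} : Set W)ᶜ : Set W) | T.Adj p w.1}).ncard + 1 ≤ 3 := by
        rw [← Set.ncard_insert_of_notMem (a := l) ?_ (Set.toFinite _)]
        · refine le_trans (Set.ncard_le_ncard ?_ (Set.toFinite _)) (hdeg p)
          intro x hx
          rcases hx with rfl | ⟨x, hx, rfl⟩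
          · exact hp.symm
          · exact hx
        · rintro ⟨x, _, hx⟩
          exact x.2 hx
      rw [Set.ncard_image_of_injective _ (Subtype.val_injective)] at h1
      omega
    obtain ⟨z, hz, hzS⟩ : ∃ z, Ad (φ ⟨p, hpl⟩) z ∧ z ∉ S := by
      by_contra hcon
      push Not at hcon
      have h3 : ({a, b, c} : Set V).ncard = 3 := by
        rw [Set.ncard_eq_three]
        exact ⟨a, b, c, hab, hac, hbc, rfl⟩
      have h4 : ({a, b, c} : Set V).ncard ≤ S.ncard := by
        refine Set.ncard_le_ncard ?_ (Set.toFinite _)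
        rintro x (rfl | rfl | rfl)
        · exact hcon _ ha
        · exact hcon _ hb
        · exact hcon _ hc
      omega
    obtain ⟨ψ, e1, e2⟩ : ∃ ψ : W → V, ψ l = z ∧ ∀ (w : W) (h : w ≠ l), ψ w = φ ⟨w, h⟩ :=
      ⟨fun w => if h : w ≠ l then φ ⟨w, h⟩ else z, by simp, fun w h => by
        simp only [ne_eq, h, not_false_eq_true, dite_true]⟩
    refine ⟨ψ, ?_, ?_, ?_⟩
    · intro u w huw
      by_cases hu : u = l
      · subst hu
        have hw := hpu w huw
        subst hw
        rw [e1, e2 _ hpl]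
        exact hsym _ _ hz
      · by_cases hw : w = l
        · subst hw
          have hu' := hpu u huw.symm
          subst hu'
          rw [e1, e2 _ hpl]
          exact hz
        · rw [e2 _ hu, e2 _ hw]
          exact f1 _ _ huw
    · intro u w q hqu hqw heq
      by_cases hu : u = l
      · by_cases hw : w = l
        · rw [hu, hw]
        · subst hu
          have hq := hpu q hqu.symm
          subst hq
          rw [e1, e2 _ hw] at heq
          exact absurd ⟨⟨w, hw⟩, hqw, heq.symm⟩ hzS
      · by_cases hw : w = l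
        · subst hw
          have hq := hpu q hqw.symm
          subst hq
          rw [e1, e2 _ hu] at heq
          exact absurd ⟨⟨u, hu⟩, hqu, heq⟩ hzS
        · rw [e2 _ hu, e2 _ hw] at heq
          by_cases hq : q = l
          · subst hq
            rw [hpu u hqu, hpu w hqw]
          · exact congrArg Subtype.val (f2 ⟨u, hu⟩ ⟨w, hw⟩ ⟨q, hq⟩ hqu hqw heq)
    · intro w
      by_cases hw : w = l
      · rw [hw, e1]
        exact ⟨_, hsym _ _ hz⟩
      · rw [e2 _ hw]
        exact f3 _

/-- a non-backtracking walk of length less than the girth is not closed -/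
theorem nb {V : Type} {Ad : V → V → Prop} (hirr : ∀ a, ¬ Ad a a) {g : ℕ}
    (hG : ∀ k, k + 3 < g → ∀ v : Fin (k + 3) → V, Function.Injective v → ¬ ∀ i, Ad (v i) (v (i + 1)))
    (x : ℕ → V) (n : ℕ) (hn : n < g) (h1 : ∀ i, i < n → Ad (x i) (x (i + 1)))
    (h2 : ∀ i, i + 2 ≤ n → x i ≠ x (i + 2)) (h3 : 0 < n) : x 0 ≠ x n := by
  intro h0
  classical
  have hex : ∃ d, 0 < d ∧ ∃ i, i + d ≤ n ∧ x i = x (i + d) := ⟨n, h3, 0, by omega, by simpa using h0⟩
  obtain ⟨hd, i, hi, hxi⟩ := Nat.find_spec hex
  have hmin := fun m (hm : m < Nat.find hex) => Nat.find_min hex hm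
  set d := Nat.find hex with hdd
  have hd3 : 3 ≤ d := by
    by_contra hcon
    have h4 : d = 1 ∨ d = 2 := by omega
    rcases h4 with h4 | h4
    · rw [h4] at hxi hi
      exact hirr _ (hxi ▸ h1 i (by omega))
    · rw [h4] at hxi hi
      exact h2 i hi hxi
  obtain ⟨k, hk⟩ : ∃ k, d = k + 3 := ⟨d - 3, by omega⟩
  refine hG k (by omega) (fun t : Fin (k + 3) => x (i + t.1)) ?_ ?_
  · intro s t hst
    by_contra hne
    have hne' : s.1 ≠ t.1 := fun h => hne (Fin.ext h)
    rcases Nat.lt_or_gt_of_ne hne' with h | h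
    · refine hmin (t.1 - s.1) (by have := t.2; omega) ⟨by omega, i + s.1, by have := t.2; omega, ?_⟩
      rw [show i + s.1 + (t.1 - s.1) = i + t.1 by omega]
      exact hst
    · refine hmin (s.1 - t.1) (by have := s.2; omega) ⟨by omega, i + t.1, by have := s.2; omega, ?_⟩
      rw [show i + t.1 + (s.1 - t.1) = i + s.1 by omega]
      exact hst.symm
  · intro t
    by_cases ht : t.1 + 1 < k + 3
    · have h5 : (t + 1).1 = t.1 + 1 := by
        rw [Fin.val_add_one]
        split_ifs with h6
        · rw [h6, Fin.val_last] at ht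
          omega
        · rfl
      simp only [h5]
      exact h1 (i + t.1) (by omega)
    · have h6 : t = Fin.last (k + 2) := Fin.ext (by rw [Fin.val_last]; have := t.2; omega)
      rw [h6]
      simp only [Fin.last_add_one, Fin.val_zero, Fin.val_last, Nat.add_zero]
      rw [hxi, hk]
      exact h1 (i + (k + 2)) (by omega)

/-- a locally injective homomorphism of a tree of diameter at most `g - 2` into a graph of girth at
least `g` is an isomorphism onto an induced subgraph -/
theorem ind {V : Type} {Ad : V → V → Prop} (hsym : ∀ a b, Ad a b → Ad b a)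
    (hirr : ∀ a, ¬ Ad a a) {g : ℕ}
    (hG : ∀ k, k + 3 < g → ∀ v : Fin (k + 3) → V, Function.Injective v → ¬ ∀ i, Ad (v i) (v (i + 1)))
    {W : Type} {T : SimpleGraph W} (hT : T.Connected) (hd : ∀ a b, T.dist a b + 2 ≤ g) {φ : W → V}
    (f1 : ∀ a b, T.Adj a b → Ad (φ a) (φ b))
    (f2 : ∀ a b c, T.Adj c a → T.Adj c b → φ a = φ b → a = b) :
    Function.Injective φ ∧ ∀ a b, Ad (φ a) (φ b) → T.Adj a b := by
  have key : ∀ a b, a ≠ b → ∃ (n : ℕ) (u : ℕ → W), 0 < n ∧ n + 2 ≤ g ∧ u 0 = a ∧ u n = b ∧
      (∀ i, i < n → T.Adj (u i) (u (i + 1))) ∧ (∀ i, i + 2 ≤ n → u i ≠ u (i + 2)) := by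
    intro a b hab
    obtain ⟨p, hp⟩ := hT.exists_walk_length_eq_dist a b
    have hpath := p.isPath_of_length_eq_dist hp
    refine ⟨p.length, p.getVert, ?_, hp ▸ hd a b, p.getVert_zero, p.getVert_length, ?_, ?_⟩
    · rw [Nat.pos_iff_ne_zero]
      exact fun h => hab (Walk.eq_of_length_eq_zero h)
    · exact fun i hi => p.adj_getVert_succ hi
    · intro i hi h
      have := hpath.getVert_injOn (by simp only [Set.mem_ofPred_eq]; omega)
        (by simp only [Set.mem_ofPred_eq]; omega) h
      omega
  have hinj : Function.Injective φ := by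
    intro a b hab
    by_contra hne
    obtain ⟨n, u, n1, n2, u0, un, u1, u2⟩ := key a b hne
    refine nb hirr hG (fun i => φ (u i)) n (by omega) (fun i hi => f1 _ _ (u1 i hi)) ?_ n1 ?_
    · intro i hi h
      exact u2 i hi (f2 _ _ (u (i + 1)) (u1 i (by omega)).symm (u1 (i + 1) (by omega)) h)
    · simp only [u0, un, hab]
  refine ⟨hinj, ?_⟩
  intro a b hab
  by_contra hnadj
  have hne : a ≠ b := by
    rintro rfl
    exact hirr _ hab
  obtain ⟨n, u, n1, n2, u0, un, u1, u2⟩ := key a b hne
  have hn2 : 2 ≤ n := by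
    by_contra hcon
    have : n = 1 := by omega
    subst this
    exact hnadj (u0 ▸ un ▸ u1 0 (by omega))
  refine nb hirr hG (fun i => if i ≤ n then φ (u i) else φ a) (n + 1) (by omega) ?_ ?_ (by omega) ?_
  · intro i hi
    by_cases h : i + 1 ≤ n
    · simp only [if_pos (show i ≤ n by omega), if_pos h]
      exact f1 _ _ (u1 i (by omega))
    · have : i = n := by omega
      subst this
      simp only [if_pos le_rfl, if_neg h, un]
      exact hsym _ _ hab
  · intro i hi h
    by_cases h4 : i + 2 ≤ n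
    · simp only [if_pos (show i ≤ n by omega), if_pos h4] at h
      exact u2 i h4 (hinj h)
    · have h5 : i + 1 = n := by omega
      simp only [if_pos (show i ≤ n by omega), if_neg h4] at h
      have h6 := hinj h
      have h7 : i ≠ 0 := by omega
      rw [← u0] at h6
      -- `u i = u 0`, a path
      obtain ⟨m, w, m1, m2, w0, wm, w1, w2⟩ : ∃ (m : ℕ) (w : ℕ → W), 0 < m ∧ m + 2 ≤ g ∧
          w 0 = u 0 ∧ w m = u i ∧ (∀ j, j < m → T.Adj (w j) (w (j + 1))) ∧
          (∀ j, j + 2 ≤ m → w j ≠ w (j + 2)) :=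
        ⟨i, u, by omega, by omega, rfl, rfl, fun j hj => u1 j (by omega),
          fun j hj => u2 j (by omega)⟩
      refine nb hirr hG (fun j => φ (w j)) m (by omega) (fun j hj => f1 _ _ (w1 j hj)) ?_ m1 ?_
      · intro j hj h8
        exact w2 j hj (f2 _ _ (w (j + 1)) (w1 j (by omega)).symm (w1 (j + 1) (by omega)) h8)
      · simp only [w0, wm, h6]
  · simp only [if_pos (Nat.zero_le n), if_neg (show ¬ n + 1 ≤ n by omega), u0]

end Q114.IM
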