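import Pool.Agent.Q114.IM.Emb
import Pool.Agent.TH362.TF.Multi
import Pool.Agent.Q165.IC.Main

/-!
# Nowhere-zero 5-flows in graphs without a tree as an induced minor
-/

set_option autoImplicit false
set_option linter.unusedSectionVars false

namespace Pool.Agent.Q114.IM

open Finset Pool.Agent.TH676.Z Pool.Agent.Y335.FL Pool.Agent.Y358.IN Pool.Agent.Q165.SG
open TH362.Multi (ConnectedSet Linked Step)

/-- The graph `T` is an induced minor: there are disjoint connected sets of vertices, one for each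
vertex of `T`, such that two different ones are joined by an edge exactly if the vertices of `T` are
adjacent. -/
def HasInducedMinor {V E W : Type} (T : SimpleGraph W) (src dst : E → V) : Prop :=
  ∃ B : W → Set V, (∀ a, ConnectedSet src dst (B a)) ∧
    (∀ a b, a ≠ b → Disjoint (B a) (B b)) ∧
    ∀ a b, a ≠ b → (T.Adj a b ↔
      ∃ e, (src e ∈ B a ∧ dst e ∈ B b) ∨ (src e ∈ B b ∧ dst e ∈ B a))

section

variable {V E : Type} [Fintype V] [DecidableEq V] [Fintype E] [DecidableEq E]

/-- a quotient with connected classes -/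
def Quo (src0 dst0 : E → V) (src dst : E → V) : Prop :=
  ∃ f : V → V, src = f ∘ src0 ∧ dst = f ∘ dst0 ∧
    ∀ x y, f x = f y → Linked src0 dst0 {e | f (src0 e) = f x ∧ f (dst0 e) = f x} x y

theorem quo_refl (src0 dst0 : E → V) : Quo src0 dst0 src0 dst0 :=
  ⟨id, rfl, rfl, fun x y h => by
    have h' : x = y := h
    subst h'
    exact Relation.ReflTransGen.refl⟩

theorem linked_mono {src dst : E → V} {C D : Set E} (h : C ⊆ D) {x y : V}
    (h1 : Linked src dst C x y) : Linked src dst D x y := by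
  induction h1 with
  | refl => exact Relation.ReflTransGen.refl
  | tail _ h2 ih =>
    obtain ⟨e, he, h2⟩ := h2
    exact ih.tail ⟨e, h he, h2⟩

theorem linked_symm {src dst : E → V} {C : Set E} {x y : V}
    (h1 : Linked src dst C x y) : Linked src dst C y x := by
  induction h1 with
  | refl => exact Relation.ReflTransGen.refl
  | tail _ h2 ih =>
    obtain ⟨e, he, h2⟩ := h2
    exact Relation.ReflTransGen.head ⟨e, he, h2.symm⟩ ih

theorem quo_cc (src0 dst0 : E → V) : Pool.Agent.Y358.IN.CC (V := V) (E := E) (Quo src0 dst0) := by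
  rintro src dst e ⟨f, rfl, rfl, hf⟩ hne
  simp only [Function.comp_apply] at hne ⊢
  set u := f (src0 e) with hu
  set v := f (dst0 e) with hv
  refine ⟨ctr u v ∘ f, rfl, rfl, ?_⟩
  have hcu : ctr u v u = u := ctr_u _ _ hne
  have hcv : ctr u v v = u := ctr_v _ _
  have hco : ∀ x, x ≠ v → ctr u v x = x := fun x hx => ctr_of_ne hx
  have hmain : ∀ x y, f x = u → f y = v →
      Linked src0 dst0 {e' | ctr u v (f (src0 e')) = u ∧ ctr u v (f (dst0 e')) = u} x y := by
    intro x y hx hy
    have h1 := hf x (src0 e) (hx.trans hu)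
    have h2 := hf (dst0 e) y (hv.symm.trans hy.symm)
    refine (linked_mono ?_ h1).trans (Relation.ReflTransGen.head ?_ (linked_mono ?_ h2))
    · rintro e' ⟨k1, k2⟩
      rw [hx] at k1 k2
      exact ⟨by rw [k1, hcu], by rw [k2, hcu]⟩
    · exact ⟨e, ⟨by rw [← hu, hcu], by rw [← hv, hcv]⟩, Or.inl ⟨rfl, rfl⟩⟩
    · rintro e' ⟨k1, k2⟩
      exact ⟨by rw [k1, ← hv, hcv], by rw [k2, ← hv, hcv]⟩
  intro x y hxy
  simp only [Function.comp_apply] at hxy ⊢
  by_cases h : f x = f y
  · refine linked_mono ?_ (hf x y h)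
    rintro e' ⟨k1, k2⟩
    exact ⟨congrArg _ k1, congrArg _ k2⟩
  · by_cases hx : f x = v
    · have hy : f y = u := by
        rw [hx, hcv] at hxy
        by_cases h4 : f y = v
        · exact absurd (hx.trans h4.symm) h
        · rw [hco _ h4] at hxy
          exact hxy.symm
      rw [hx, hcv]
      exact linked_symm (hmain y x hy hx)
    · by_cases hy : f y = v
      · rw [hco _ hx, hy, hcv] at hxy
        rw [hxy, hcu]
        exact hmain x y hxy hy
      · rw [hco _ hx, hco _ hy] at hxy
        exact absurd hxy h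

/-- **5-flows**: excluding a tree of maximum degree three and diameter at most ten as an induced
minor -/
theorem flowT (src dst : E → V) (hb : Br src dst ∅ ∅) {W : Type} [Fintype W]
    (T : SimpleGraph W) (hT : T.IsTree) (hdeg : ∀ w, (T.neighborSet w).ncard ≤ 3)
    (hd : ∀ a b, T.dist a b ≤ 10) (hno : ¬ HasInducedMinor T src dst) : FlowOn src dst ∅ ∅ := by
  classical
  by_contra hn
  obtain ⟨s, d, ⟨f, rfl, rfl, hf⟩, hM⟩ :=
    exists_minC (quo_cc src dst) src dst (quo_refl src dst) hb hn
  have hG := girthC contract_all hM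
  have hT3 := threeC contract_all hM
  by_cases hloop : ∀ e, (f ∘ src) e = (f ∘ dst) e
  · exact hM.nf (flow_of_loops hloop)
  push Not at hloop
  obtain ⟨e0, he0⟩ := hloop
  have hsym : ∀ a b, Adj (f ∘ src) (f ∘ dst) a b → Adj (f ∘ src) (f ∘ dst) b a :=
    fun a b h => adj_symm h
  obtain ⟨φ, f1, f2, f3⟩ := Q114.IM.emb hsym hT3 (v0 := (f ∘ src) e0) (y0 := (f ∘ dst) e0)
    ⟨he0, e0, Or.inl ⟨rfl, rfl⟩⟩ _ W T rfl hT hdeg
  obtain ⟨g1, g2⟩ := Q114.IM.ind hsym (fun a h => h.1 rfl) hG hT.connected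
    (fun a b => by have := hd a b; omega) f1 f2
  apply hno
  refine ⟨fun w => {x | f x = φ w}, ?_, ?_, ?_⟩
  · intro w
    refine ⟨?_, ?_⟩
    · obtain ⟨y, _, e, he⟩ := f3 w
      rcases he with ⟨h1, _⟩ | ⟨_, h1⟩
      · exact ⟨src e, h1⟩
      · exact ⟨dst e, h1⟩
    · intro x hx y hy
      have hx' : f x = φ w := hx
      have hy' : f y = φ w := hy
      refine linked_mono ?_ (hf x y (hx'.trans hy'.symm))
      rintro e' ⟨k1, k2⟩
      exact ⟨k1.trans hx', k2.trans hx'⟩
  · intro a b hab
    rw [Set.disjoint_left]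
    intro x hx hx'
    exact hab (g1 ((show f x = φ a from hx).symm.trans hx'))
  · intro a b hab
    have hne : φ a ≠ φ b := fun h => hab (g1 h)
    constructor
    · intro h
      obtain ⟨_, e, he⟩ := f1 a b h
      exact ⟨e, he⟩
    · rintro ⟨e, he⟩
      exact g2 a b ⟨hne, e, he⟩

end

end Pool.Agent.Q114.IM
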